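import Pool.Agent.W398.SG.StmC

/-!
Project SG, part C: `S_TRIV`.
-/

set_option autoImplicit false

namespace Pool.Agent.W366.SG.Triv

open Pool.Agent.W37.SG Pool.Agent.W398.SG.C

theorem main : S_TRIV := by
  intro p _ d P _ hP ρ hρ
  by_contra hd
  have hd0 : 0 < d := by omega
  have hd1 : 1 < d := by omega
  have hnu : ¬ ((p : ℤ_[p]) ∣ 1) := fun h => PadicInt.prime_p.not_isUnit (isUnit_of_dvd_one h)
  have hg : ∀ (g : P) (x : Fin d → ℤ_[p]), ρ g x = x := by
    intro g x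
    rw [Subsingleton.elim g 1, map_one]
    rfl
  let L : Fin d → Submodule ℤ_[p] (Fin d → ℤ_[p]) := fun i =>
    Submodule.comap (LinearMap.proj i) (Ideal.span {(p : ℤ_[p])})
  have hL : ∀ i x, x ∈ L i ↔ (p : ℤ_[p]) ∣ x i := by
    intro i x
    exact Ideal.mem_span_singleton
  have hinv : ∀ i (g : P), ∀ x ∈ L i, ρ g x ∈ L i := by
    intro i g x hx
    rw [hg]
    exact hx
  have hfin : ∀ i, ∃ n : ℕ, ∀ x, (p : ℤ_[p]) ^ n • x ∈ L i := by
    intro i
    refine ⟨1, fun x => ?_⟩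
    rw [hL, pow_one, Pi.smul_apply, smul_eq_mul]
    exact dvd_mul_right _ _
  have hne : ∀ i j : Fin d, i ≠ j → ¬ (L i ≤ L j) := by
    intro i j hij h
    have h1 : (Pi.single j 1 : Fin d → ℤ_[p]) ∈ L i := by
      rw [hL, Pi.single_eq_of_ne hij]
      exact dvd_zero _
    have h2 := h h1
    rw [hL, Pi.single_eq_same] at h2
    exact hnu h2
  have h01 : (⟨0, hd0⟩ : Fin d) ≠ ⟨1, hd1⟩ := by
    intro h
    have := congrArg Fin.val h
    simp at this
  rcases hρ (L ⟨0, hd0⟩) (L ⟨1, hd1⟩) (hinv _) (hinv _) (hfin _) (hfin _) with h | h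
  · exact hne _ _ h01 h
  · exact hne _ _ h01.symm h

end Pool.Agent.W366.SG.Triv
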